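import Mathlib
import Pool.Agent.N852.QN.Main
import Pool.Agent.N852.QN.Geo
import Pool.Agent.N852.QN.Nst
import Pool.Agent.N852.QN.Ub
import Pool.Agent.N852.QN.Spc
import Pool.Agent.N852.QN.Lin
import Pool.Agent.N852.QN.Exc
import Pool.Agent.N852.QN.Sumc
import Pool.Agent.N852.QN.Hyp
import Pool.Agent.N852.QN.Dic
import Pool.Agent.N852.QN.Conc
import Pool.Agent.N852.QN.Dep

/-!
The weak form of the conjecture of Manin over the rational numbers, for all big and nef line
bundles, for ALL smooth divisors `X` of bidegree `(1,2)` in `ℙⁿ × ℙ²`, all `n ≥ 2` (for `n = 2`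
these are the Fano threefolds of the family 2.24; `-K = (n, 1)`).

* `A i j k`: the coefficients of `n + 1` arbitrary quadratic forms with integer coefficients
  `quad A y i = ∑ A i j k y_j y_k` in three variables; the divisor `X` is given by
  `eqn A x y = ∑ x_i quad A y i = 0`.
* `hess A x`: the symmetric matrix of the second derivatives with respect to `y`; the partial
  derivatives of the equation are `quad A y i` (with respect to `x_i`) and the components of
  `hess A x *ᵥ y` (with respect to `y_j`).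
* `Smooth A`: at no complex point of `X` do all partial derivatives vanish.
* `U`: the open subset of `X` of the points `(x, y)` where the conic with the parameter `x` is
  smooth, `det (hess A x) ≠ 0`.

The theorem: `U` has a rational point, and for all real `l 0, l 1 > 0` (all big and nef line bundles
`L = (l 0, l 1)`) and all `ε > 0` the number of rational points of `U` with
`H(x) ^ l 0 * H(y) ^ l 1 ≤ T` is finite and at most `C T ^ (a + ε)`, where
`a = max (n / l 0, 1 / l 1)` is the Fujita invariant `a(X, L)`.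
-/

namespace Pool.Agent.Results.MP_18ea5f_nt.ConicBundlesAllBundles

open Matrix

variable {n : ℕ}

/-- the values of the quadratic forms with the coefficients `A i j k` -/
def quad (A : Fin (n + 1) → Matrix (Fin 3) (Fin 3) ℤ) {K : Type*} [CommRing K] (y : Fin 3 → K)
    (i : Fin (n + 1)) : K :=
  ∑ j, ∑ k, (A i j k : K) * (y j * y k)

/-- the equation of `X` -/
def eqn (A : Fin (n + 1) → Matrix (Fin 3) (Fin 3) ℤ) {K : Type*} [CommRing K]
    (x : Fin (n + 1) → K) (y : Fin 3 → K) : K :=
  ∑ i, x i * quad A y i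

/-- the matrix of the second derivatives with respect to `y` -/
def hess (A : Fin (n + 1) → Matrix (Fin 3) (Fin 3) ℤ) {K : Type*} [CommRing K]
    (x : Fin (n + 1) → K) : Matrix (Fin 3) (Fin 3) K :=
  fun j k => ∑ i, x i * ((A i j k : K) + (A i k j : K))

/-- at no complex point of `X` do all partial derivatives vanish -/
def Smooth (A : Fin (n + 1) → Matrix (Fin 3) (Fin 3) ℤ) : Prop :=
  ∀ (x : Fin (n + 1) → ℂ) (y : Fin 3 → ℂ), x ≠ 0 → y ≠ 0 → eqn A x y = 0 →
    ¬((∀ i, quad A y i = 0) ∧ hess A x *ᵥ y = 0)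

/-- the symmetric matrices -/
private def sy (A : Fin (n + 1) → Matrix (Fin 3) (Fin 3) ℤ) :
    Fin (n + 1) → Matrix (Fin 3) (Fin 3) ℤ :=
  fun i j k => A i j k + A i k j

open Pool.Agent.N852.QN in
private theorem gm_sy (A : Fin (n + 1) → Matrix (Fin 3) (Fin 3) ℤ) {K : Type*} [CommRing K]
    (x : Fin (n + 1) → K) : gm (sy A) x = hess A x := by
  ext j k
  unfold gm hess sy
  push_cast
  rfl

open Pool.Agent.N852.QN in
private theorem cq_sy (A : Fin (n + 1) → Matrix (Fin 3) (Fin 3) ℤ) {K : Type*} [CommRing K]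
    (y : Fin 3 → K) (i : Fin (n + 1)) : cq (sy A) y i = 2 * quad A y i := by
  unfold cq qf quad sy
  simp only [dotProduct, Matrix.mulVec, Matrix.map_apply, eq_intCast, Fin.sum_univ_three]
  push_cast
  ring

open Pool.Agent.N852.QN in
private theorem qf_sy (A : Fin (n + 1) → Matrix (Fin 3) (Fin 3) ℤ) {K : Type*} [CommRing K]
    (x : Fin (n + 1) → K) (y : Fin 3 → K) : qf (gm (sy A) x) y = 2 * eqn A x y := by
  rw [dot_cq]
  unfold dotProduct eqn
  rw [Finset.mul_sum]
  refine Finset.sum_congr rfl fun i _ => ?_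
  rw [cq_sy]
  ring

theorem result (hn : 2 ≤ n) (A : Fin (n + 1) → Matrix (Fin 3) (Fin 3) ℤ) (hA : Smooth A) :
    (∃ (P : Projectivization ℚ (Fin (n + 1) → ℚ)) (Q : Projectivization ℚ (Fin 3 → ℚ)),
      eqn A P.rep Q.rep = 0 ∧ (hess A P.rep).det ≠ 0) ∧
    ∀ l : Fin 2 → ℝ, (∀ i, 0 < l i) → ∀ ε : ℝ, 0 < ε → ∃ C : ℝ, ∀ T : ℝ, 1 ≤ T →
      {z : Projectivization ℚ (Fin (n + 1) → ℚ) × Projectivization ℚ (Fin 3 → ℚ) |
        eqn A z.1.rep z.2.rep = 0 ∧ (hess A z.1.rep).det ≠ 0 ∧
        z.1.mulHeight ^ l 0 * z.2.mulHeight ^ l 1 ≤ T}.Finite ∧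
      ({z : Projectivization ℚ (Fin (n + 1) → ℚ) × Projectivization ℚ (Fin 3 → ℚ) |
        eqn A z.1.rep z.2.rep = 0 ∧ (hess A z.1.rep).det ≠ 0 ∧
        z.1.mulHeight ^ l 0 * z.2.mulHeight ^ l 1 ≤ T}.ncard : ℝ) ≤
        C * T ^ (max (n / l 0) (1 / l 1) + ε) := by
  have hs : ∀ i, (sy A i).IsSymm := by
    intro i
    ext j k
    show A i k j + A i j k = A i j k + A i k j
    ring
  have hsm : N852.QN.Smooth (sy A) := by
    intro t x ht hx hq
    rw [qf_sy] at hq
    have h1 : eqn A t x = 0 := (mul_eq_zero.1 hq).resolve_left two_ne_zero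
    have h2 := hA t x ht hx h1
    by_contra hcon
    push Not at hcon
    apply h2
    refine ⟨fun i => ?_, ?_⟩
    · have h3 := hcon.1 i
      rw [cq_sy] at h3
      exact (mul_eq_zero.1 h3).resolve_left two_ne_zero
    · funext j
      have h3 := hcon.2 j
      rw [gm_sy] at h3
      exact h3
  obtain ⟨hb, hd, hc⟩ := N852.QN.geoP (n + 1) (sy A) (by omega) hs hsm
  have hB : N852.QN.S_BOX := N852.QN.depP (N852.QN.boxiP N852.QN.nstP
    (N852.QN.dicP N852.QN.hypP) (N852.QN.concP N852.QN.ubP)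
    (N852.QN.sumcP N852.QN.spcP N852.QN.linP N852.QN.excP))
  have h := N852.QN.main hB hn (sy A) hs hb hd hc
  have e1 : ∀ (x : Fin (n + 1) → ℚ) (y : Fin 3 → ℚ),
      N852.QN.qf (hess A x) y = 0 ↔ eqn A x y = 0 := by
    intro x y
    rw [← gm_sy, qf_sy]
    constructor
    · intro h
      exact (mul_eq_zero.1 h).resolve_left two_ne_zero
    · intro h
      rw [h, mul_zero]
  simp only [gm_sy, e1] at h
  exact h

end Pool.Agent.Results.MP_18ea5f_nt.ConicBundlesAllBundles
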