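import Mathlib
import Pool.Agent.N852.GR.Glue
import Pool.Agent.N852.GR.Lat
import Pool.Agent.N852.GR.Dim
import Pool.Agent.N852.GR.Trk
import Pool.Agent.N852.GR.Cel
import Pool.Agent.N852.GR.Cnt
import Pool.Agent.N852.GR.Rnk
import Pool.Agent.N852.GR.Pbp
import Pool.Agent.N713.GR.Bad
import Pool.Agent.N852.GR.Eps
import Pool.Agent.N852.GR.EngT
import Pool.Agent.N852.GR.Pig1
import Pool.Agent.N852.GR.Pig2
import Pool.Agent.N852.GR.Red
import Pool.Agent.N852.GR.Arc
import Pool.Agent.N852.GR.Ctt
import Pool.Agent.N852.GR.Hgt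
import Pool.Agent.N852.GR.Lld
import Pool.Agent.N852.GR.Exu
import Pool.Agent.N852.GR.Smt
import Pool.Agent.N852.GR.FinT

/-!
The weak form of the conjecture of Manin over ALL number fields `F`, for all big and nef line
bundles, for ALL smooth linear sections of codimension `k` of the Grassmannian of the planes in an
`n`-dimensional space, `n ≥ 4 k`.

* `A i`, `i < k`: alternating `n × n` matrices over `F`.
* `OnX A P`: `P` is a rational point of `X`, i.e. `P` is a plane in `Fⁿ` on which all the alternating
  forms `aᵀ (A i) b` vanish.  `X` is the intersection of the Grassmannian in its Plücker embedding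
  with the `k` hyperplanes given by the `A i`.
* `Smooth A`: the Jacobian criterion at the complex points of `X`, for all embeddings of `F`: the
  differential of `∑ l i A i` at the plane spanned by `a, b` vanishes if and only if
  `(∑ l i A i) a = (∑ l i A i) b = 0`.
* `InU A P`: the images of `P` under the `A i` span a space of the largest possible dimension `2 k`.
  These `P` form a Zariski open subset `U` of `X`.
* `plucker a b`: the Plücker coordinates; `Height.mulHeight (plucker a b)` is the (relative) height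
  over `F` of the plane spanned by `a, b`.  It does not depend on the basis.

`-K = (n - k) H`, where `H` is the restriction of the hyperplane class of the Plücker embedding,
and `Pic X = ℤ H`, so the heights `H ^ l`, `l > 0`, are the heights of all big and nef `L`, and
`a(X, l H) = (n - k) / l`.
-/

namespace Pool.Agent.Results.MP_18ea5f_nt.GrassmannianSections

open Module Matrix

variable {F : Type} [Field F] {n k : ℕ}

/-- `P` is a rational point of `X`: a plane on which all the forms vanish. -/
def OnX (A : Fin k → Matrix (Fin n) (Fin n) F) (P : Submodule F (Fin n → F)) : Prop :=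
  finrank F P = 2 ∧ ∀ i, ∀ a ∈ P, ∀ b ∈ P, a ⬝ᵥ A i *ᵥ b = 0

/-- The Jacobian criterion for `X` in the Grassmannian of the planes. -/
def Smooth (A : Fin k → Matrix (Fin n) (Fin n) F) : Prop :=
  ∀ (σ : F →+* ℂ) (a b : Fin n → ℂ), LinearIndependent ℂ ![a, b] →
    (∀ i, a ⬝ᵥ (A i).map σ *ᵥ b = 0) → ∀ l : Fin k → ℂ, l ≠ 0 →
      (∑ i, l i • (A i).map σ) *ᵥ a ≠ 0 ∨ (∑ i, l i • (A i).map σ) *ᵥ b ≠ 0

/-- The open subset `U`: the images of `P` under the `A i` span a space of dimension `2 k`. -/
def InU (A : Fin k → Matrix (Fin n) (Fin n) F) (P : Submodule F (Fin n → F)) : Prop :=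
  finrank F (⨆ i, P.map (A i).mulVecLin : Submodule F (Fin n → F)) = 2 * k

/-- The Plücker coordinates of the plane spanned by `a` and `b`. -/
def plucker (a b : Fin n → F) : Fin n × Fin n → F := fun p => a p.1 * b p.2 - a p.2 * b p.1

open Pool.Agent.N852 in
theorem result (F : Type) [Field F] [NumberField F] (n k : ℕ) (hk : 1 ≤ k) (hn : 4 * k ≤ n)
    (A : Fin k → Matrix (Fin n) (Fin n) F) (hA : ∀ i, (A i)ᵀ = -(A i)) (hX : Smooth A) :
    (∃ P : Submodule F (Fin n → F), OnX A P ∧ InU A P) ∧
    ∀ l : ℝ, 0 < l → ∀ ε : ℝ, 0 < ε → ∃ C : ℝ, ∀ T : ℝ, 1 ≤ T →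
      {P : Submodule F (Fin n → F) | OnX A P ∧ InU A P ∧
        ∃ a b, Submodule.span F {a, b} = P ∧ Height.mulHeight (plucker a b) ^ l ≤ T}.Finite ∧
      ({P : Submodule F (Fin n → F) | OnX A P ∧ InU A P ∧
        ∃ a b, Submodule.span F {a, b} = P ∧ Height.mulHeight (plucker a b) ^ l ≤ T}.ncard : ℝ) ≤
        C * T ^ (((n : ℝ) - k) / l + ε) := by
  have hL := GR.latP F
  have hB := Pool.Agent.N713.GR.badP F (GR.dimP F) (GR.trkP F) GR.celP (GR.cntP F hL) (GR.rnkP F)
    (GR.pbP F)
  have hE := GR.engP F hL (GR.dimP F) hB GR.epsP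
  have hH := GR.hgtP F (GR.arcP F (GR.pig1P F)) (GR.cttP F (GR.pig2P F))
  have hF := GR.finP F hL (GR.redP F hL) hH hE
  exact GR.glue (GR.exuP F GR.lldP) (GR.smtP F) hF hk hn A hA hX

end Pool.Agent.Results.MP_18ea5f_nt.GrassmannianSections
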