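import Mathlib
import Pool.Agent.N852.EL.FinW

/-!
The weak form of the conjecture of Manin over the rational numbers, for all big and nef line bundles
and with the conjectured power of the logarithm, for complete intersections `X` of multilinear
hypersurfaces in products of any number `m` of projective spaces, under a condition on ranks.

* `Tuple n K`: families `x` of vectors `x v` of length `n v`, `v = 1, ..., m`: the coordinates of
  the points of the product of the projective spaces of dimensions `n v - 1`.
* `System n k`: `k` forms with integer coefficients; the `i`-th form is linear in each of the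
  vectors `x v` with `v` in the set `e i` and does not depend on the others; `T i` is the array of
  its coefficients and `form F i x` its value.
* `OnX F x`: all forms vanish at `x`; this defines `X`.
* `grad F i v x`: the vector of the partial derivatives of the `i`-th form with respect to the
  coordinates of the vector `x v` (the form is linear in `x v`, so these are its values at the unit
  vectors).
* `deg F v`: the number of the forms which depend on `x v`; the anticanonical class of `X` is
  `-K = ∑ (n v - deg F v) H_v`, with `H_v` the classes of the hyperplanes of the factors.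
* `InU F x`: for every `v` the vectors `grad F i v x`, for the forms which depend on `x v`, are
  linearly independent.  This defines an open subset `U` of `X`.
* `RankCondition F`: the vectors have at least one coordinate, every form depends on at least two
  vectors, every vector occurs in a form, and for any two different `u`, `v` every nontrivial real
  linear combination of the forms which depend on `x u` and on `x v` is a bilinear form in `x u`,
  `x v` of rank larger than the sum of the numbers of vectors in the forms, whatever nonzero real
  vectors are inserted for the other variables.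
* `fujita F l`: the largest of the numbers `(n v - deg F v) / l v`: the Fujita invariant `a(X, L)`
  of `L = ∑ l_v H_v`, the smallest `t` such that `t L + K` is in the cone generated by the `H_v`.
* `multiplicity F l`: the number of the `v` for which this maximum is attained, the number
  `b(X, L)` of Batyrev and Manin.

The theorem: `U` contains a rational point, and for all real numbers `l_v > 0` the number of the
rational points of `U` with `∏ H(P_v) ^ l_v ≤ T` is `O(T ^ a(X, L) (log T) ^ (b(X, L) - 1))`.
-/

namespace Pool.Agent.Results.MP_18ea5f_nt.MultilinearSystemsAllBundles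

open Function

variable {m k : ℕ} {n : Fin m → ℕ}

/-- families of vectors of lengths `n v` -/
abbrev Tuple (n : Fin m → ℕ) (K : Type*) : Type _ := ∀ v, Fin (n v) → K

/-- `k` multilinear forms -/
structure System (n : Fin m → ℕ) (k : ℕ) where
  /-- the set of the vectors which occur in the `i`-th form -/
  e : Fin k → Finset (Fin m)
  /-- the coefficients of the `i`-th form -/
  T : ∀ i, (∀ v : e i, Fin (n v)) → ℤ

/-- the value of the `i`-th form -/
def form (F : System n k) {K : Type*} [CommRing K] (i : Fin k) (x : Tuple n K) : K :=
  ∑ j : (∀ v : F.e i, Fin (n v)), (F.T i j : K) * ∏ v : F.e i, x v (j v)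

/-- the equations of `X` -/
def OnX (F : System n k) {K : Type*} [CommRing K] (x : Tuple n K) : Prop :=
  ∀ i, form F i x = 0

/-- the partial derivatives of the `i`-th form with respect to the coordinates of `x v` -/
def grad (F : System n k) {K : Type*} [CommRing K] (i : Fin k) (v : Fin m) (x : Tuple n K) :
    Fin (n v) → K :=
  fun l => form F i (update x v (Pi.single l 1))

/-- the number of the forms which depend on `x v` -/
def deg (F : System n k) (v : Fin m) : ℕ := (Finset.univ.filter fun i => v ∈ F.e i).card

/-- the open subset `U` -/
def InU (F : System n k) {K : Type*} [Field K] (x : Tuple n K) : Prop :=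
  ∀ v, LinearIndependent K fun i : {i : Fin k // v ∈ F.e i} => grad F i v x

/-- the hypothesis on the forms -/
structure RankCondition (F : System n k) : Prop where
  pos : ∀ v, 1 ≤ n v
  two : ∀ i, 2 ≤ (F.e i).card
  cover : ∀ v, ∃ i, v ∈ F.e i
  rank : ∀ u v, u ≠ v → ∀ s : Fin k → ℝ, (∀ i, s i ≠ 0 → u ∈ F.e i ∧ v ∈ F.e i) → s ≠ 0 →
    ∀ x : Tuple n ℝ, (∀ t, t ≠ u → t ≠ v → x t ≠ 0) →
    ∑ i, (F.e i).card < (Matrix.of fun (b : Fin (n v)) (c : Fin (n u)) => ∑ i, s i *
      form F i (update (update x v (Pi.single b 1)) u (Pi.single c 1))).rank

/-- the Fujita invariant of `∑ l_v H_v` -/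
noncomputable def fujita (F : System n k) (l : Fin m → ℝ) : ℝ :=
  ⨆ v, ((n v - deg F v : ℕ) : ℝ) / l v

/-- the number of the `v` for which the maximum is attained -/
noncomputable def multiplicity (F : System n k) (l : Fin m → ℝ) : ℕ :=
  Nat.card {v // ((n v - deg F v : ℕ) : ℝ) / l v = fujita F l}

theorem result (hk : 1 ≤ k) (F : System n k) (hF : RankCondition F) :
    (∃ P : ∀ v, Projectivization ℚ (Fin (n v) → ℚ),
      OnX F (fun v => (P v).rep) ∧ InU F (fun v => (P v).rep)) ∧
    ∀ l : Fin m → ℝ, (∀ v, 0 < l v) → ∃ C : ℝ, ∀ T : ℝ, 2 ≤ T →
      {P : ∀ v, Projectivization ℚ (Fin (n v) → ℚ) | OnX F (fun v => (P v).rep) ∧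
        InU F (fun v => (P v).rep) ∧ ∏ v, (P v).mulHeight ^ l v ≤ T}.Finite ∧
      ({P : ∀ v, Projectivization ℚ (Fin (n v) → ℚ) | OnX F (fun v => (P v).rep) ∧
        InU F (fun v => (P v).rep) ∧ ∏ v, (P v).mulHeight ^ l v ≤ T}.ncard : ℝ) ≤
          C * T ^ fujita F l * Real.log T ^ (multiplicity F l - 1) := by
  classical
  set G : N852.MM.Sys n k := ⟨F.e, F.T⟩ with hG
  have hdeg : ∀ v, N852.MM.dg G v = deg F v := fun v => Fintype.card_subtype _
  have hRC : N852.MM.RC G (∑ i, (G.e i).card) := hF.rank
  have hle : ∀ v, deg F v ≤ n v := by
    intro v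
    obtain ⟨i, hi⟩ := hF.cover v
    obtain ⟨u, hu, huv⟩ := Finset.exists_mem_ne (by have := hF.two i; omega :
      1 < (F.e i).card) v
    have h1 := hF.rank v u huv.symm (Pi.single i 1) (by
      intro j hj
      by_cases h : j = i
      · subst h
        exact ⟨hi, hu⟩
      · rw [Pi.single_eq_of_ne h] at hj
        exact absurd rfl hj) (by
      intro h0
      have := congrFun h0 i
      simp at this) (fun _ _ => 1) (by
      intro t _ _ h0
      have := congrFun h0 ⟨0, hF.pos t⟩
      simp at this)
    have h2 := h1.trans_le (Matrix.rank_le_width _)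
    have h3 : ∑ i : Fin k, 2 ≤ ∑ i, (F.e i).card := Finset.sum_le_sum fun i _ => hF.two i
    have h4 : deg F v ≤ k := by
      unfold deg
      exact (Finset.card_le_univ _).trans (by simp)
    simp at h3
    omega
  have ho : ∃ o : Fin m, True := by
    obtain ⟨u, hu⟩ := Finset.card_pos.1 (by have := hF.two ⟨0, hk⟩; omega :
      0 < (F.e ⟨0, hk⟩).card)
    exact ⟨u, trivial⟩
  obtain ⟨o, -⟩ := ho
  have hne : Nonempty (Fin m) := ⟨o⟩
  have hE := N852.MM.engI (F := G) (a := fun v => n v - deg F v) hF.two hF.cover
    (fun v => by rw [hdeg v]; exact Nat.sub_add_cancel (hle v)) rfl hRC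
  refine ⟨?_, ?_⟩
  · obtain ⟨P, h1, h3⟩ := N852.EL.exists_pt (GQ := fun v x => LinearIndependent ℚ (N852.MM.der G v x)) hE
      N852.MM.GQ_iff o
    exact ⟨P, h1, h3⟩
  · intro l hl
    obtain ⟨C, -, h⟩ := N852.EL.weak_all
      (GQ := fun v x => LinearIndependent ℚ (N852.MM.der G v x)) N852.EL.weakP hE
      N852.MM.GQ_iff l hl
    exact ⟨C, h⟩

end Pool.Agent.Results.MP_18ea5f_nt.MultilinearSystemsAllBundles
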