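import Mathlib
import Pool.Agent.N852.EL.FinW

/-!
The weak form of the conjecture of Manin over the rational numbers, for all big and nef line bundles
and with the conjectured power of the logarithm, for ALL smooth complete intersections `X` of
multilinear hypersurfaces in products of any number `m` of projective spaces of large dimension.

* `Tuple n K`: families `x` of vectors `x v` of length `n v`, `v = 1, ..., m`: the coordinates of
  the points of the product of the projective spaces of dimensions `n v - 1`.
* `System n k`: `k` forms with integer coefficients; the `i`-th form is linear in each of the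
  vectors `x v` with `v` in the set `e i` and does not depend on the others; `T i` is the array of
  its coefficients and `form F i x` its value.
* `OnX F x`: all forms vanish at `x`; this defines `X`.
* `grad F i x`: the gradient of the `i`-th form: all its partial derivatives (the form is linear in
  `x v` for `v` in `e i`, so its derivative with respect to the coordinate `l` of `x v` is its value
  at the unit vector; for the other `v` it is zero).
* `Smooth F`: the Jacobian criterion at all complex points of `X`: the `k` gradients are linearly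
  independent, i.e. `X` is a smooth complete intersection.
* `deg F v`: the number of the forms which depend on `x v`; the anticanonical class of `X` is
  `-K = ∑ (n v - deg F v) H_v`, with `H_v` the classes of the hyperplanes of the factors.
* `fujita F l`: the largest of the numbers `(n v - deg F v) / l v`: the Fujita invariant `a(X, L)`
  of `L = ∑ l_v H_v`, the smallest `t` such that `t L + K` is in the cone generated by the `H_v`.
* `multiplicity F l`: the number of the `v` for which this maximum is attained, the number
  `b(X, L)` of Batyrev and Manin.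
* `Multihomogeneous w`: the polynomial `w` is homogeneous in the coordinates of each of the vectors.
* `InU Ω P`: some polynomial of the set `Ω` does not vanish at `P`.

The theorem: let every form depend on at least two vectors and every vector occur in a form, let `X`
be smooth and `n v ≥ (m - 1) ∑_i #(e i) + 2 deg F v - k` for all `v`.  Then there is a set `Ω` of
multihomogeneous polynomials with integer coefficients such that the Zariski open subset `U` of
`X` where not all members of `Ω` vanish contains a rational point, and for all real numbers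
`l_v > 0` the number of the rational points of `U` with `∏ H(P_v) ^ l_v ≤ T` is
`O(T ^ a(X, L) (log T) ^ (b(X, L) - 1))`.
-/

namespace Pool.Agent.Results.MP_18ea5f_nt.SmoothMultilinearAllBundles

open Function

variable {m k : ℕ} {n : Fin m → ℕ}

/-- families of vectors of lengths `n v` -/
abbrev Tuple (n : Fin m → ℕ) (K : Type*) : Type _ := ∀ v, Fin (n v) → K

/-- `k` multilinear forms -/
structure System (n : Fin m → ℕ) (k : ℕ) where
  /-- the set of the vectors which occur in the `i`-th form -/
  e : Fin k → Finset (Fin m)
  /-- the coefficients of the `i`-th form -/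
  T : ∀ i, (∀ v : e i, Fin (n v)) → ℤ

/-- the value of the `i`-th form -/
def form (F : System n k) {K : Type*} [CommRing K] (i : Fin k) (x : Tuple n K) : K :=
  ∑ j : (∀ v : F.e i, Fin (n v)), (F.T i j : K) * ∏ v : F.e i, x v (j v)

/-- the equations of `X` -/
def OnX (F : System n k) {K : Type*} [CommRing K] (x : Tuple n K) : Prop :=
  ∀ i, form F i x = 0

/-- the gradient of the `i`-th form -/
def grad (F : System n k) {K : Type*} [CommRing K] (i : Fin k) (x : Tuple n K) : Tuple n K :=
  fun v l => if v ∈ F.e i then form F i (update x v (Pi.single l 1)) else 0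

/-- the Jacobian criterion at all complex points of `X` -/
def Smooth (F : System n k) : Prop :=
  ∀ x : Tuple n ℂ, (∀ v, x v ≠ 0) → OnX F x → LinearIndependent ℂ fun i => grad F i x

/-- the number of the forms which depend on `x v` -/
def deg (F : System n k) (v : Fin m) : ℕ := (Finset.univ.filter fun i => v ∈ F.e i).card

/-- the Fujita invariant of `∑ l_v H_v` -/
noncomputable def fujita (F : System n k) (l : Fin m → ℝ) : ℝ :=
  ⨆ v, ((n v - deg F v : ℕ) : ℝ) / l v

/-- the number of the `v` for which the maximum is attained -/
noncomputable def multiplicity (F : System n k) (l : Fin m → ℝ) : ℕ :=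
  Nat.card {v // ((n v - deg F v : ℕ) : ℝ) / l v = fujita F l}

/-- homogeneous in the coordinates of each vector -/
def Multihomogeneous (w : MvPolynomial (Σ v, Fin (n v)) ℤ) : Prop :=
  ∃ δ : Fin m → ℕ, ∀ β ∈ w.support, ∀ v, ∑ l, β ⟨v, l⟩ = δ v

/-- some polynomial of `Ω` does not vanish at the point `P` -/
def InU (Ω : Set (MvPolynomial (Σ v, Fin (n v)) ℤ))
    (P : ∀ v, Projectivization ℚ (Fin (n v) → ℚ)) : Prop :=
  ∃ w ∈ Ω, MvPolynomial.aeval (fun q : (Σ v, Fin (n v)) => (P q.1).rep q.2) w ≠ 0

theorem result (hk : 1 ≤ k) (F : System n k) (h2 : ∀ i, 2 ≤ (F.e i).card)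
    (hc : ∀ v, ∃ i, v ∈ F.e i) (hF : Smooth F)
    (hn : ∀ v, (m - 1) * ∑ i, (F.e i).card + 2 * deg F v ≤ n v + k) :
    ∃ Ω : Set (MvPolynomial (Σ v, Fin (n v)) ℤ), (∀ w ∈ Ω, Multihomogeneous w) ∧
      (∃ P : ∀ v, Projectivization ℚ (Fin (n v) → ℚ), OnX F (fun v => (P v).rep) ∧ InU Ω P) ∧
      ∀ l : Fin m → ℝ, (∀ v, 0 < l v) → ∃ C : ℝ, ∀ T : ℝ, 2 ≤ T →
        {P : ∀ v, Projectivization ℚ (Fin (n v) → ℚ) | OnX F (fun v => (P v).rep) ∧ InU Ω P ∧
          ∏ v, (P v).mulHeight ^ l v ≤ T}.Finite ∧
        ({P : ∀ v, Projectivization ℚ (Fin (n v) → ℚ) | OnX F (fun v => (P v).rep) ∧ InU Ω P ∧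
          ∏ v, (P v).mulHeight ^ l v ≤ T}.ncard : ℝ) ≤
            C * T ^ fujita F l * Real.log T ^ (multiplicity F l - 1) := by
  classical
  set G : N852.MM.Sys n k := ⟨F.e, F.T⟩ with hG
  have hdeg : ∀ v, N852.MM.dg G v = deg F v := fun v => Fintype.card_subtype _
  have hSm : N852.EL.Sm G := by
    intro x hx hi s hs
    have h1 := hF x hx hi
    rw [Fintype.linearIndependent_iff] at h1
    funext i
    refine h1 s ?_ i
    funext v l
    rw [Finset.sum_apply, Finset.sum_apply]
    have h3 := hs v l
    have h4 : ∑ i : {i : Fin k // v ∈ F.e i}, s i * form F i.1 (update x v (Pi.single l 1)) = 0 := h3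
    rw [Pi.zero_apply, Pi.zero_apply, ← h4,
      ← Finset.sum_subtype (Finset.univ.filter fun i => v ∈ F.e i) (by simp)
        (fun i => s i * form F i (update x v (Pi.single l 1))), Finset.sum_filter]
    refine Finset.sum_congr rfl fun i _ => ?_
    show s i * grad F i x v l = _
    unfold grad
    split_ifs
    · rfl
    · rw [mul_zero]
  have hle : ∀ v, deg F v ≤ n v := by
    intro v
    have := N852.EL.dims (F := G) h2 hc (fun v => by rw [hdeg v, Fintype.card_fin]; exact hn v) v
    have h3 : ∑ i : Fin k, 2 ≤ ∑ i, (F.e i).card := Finset.sum_le_sum fun i _ => h2 i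
    have h4 : deg F v ≤ k := by
      unfold deg
      exact (Finset.card_le_univ _).trans (by simp)
    simp at h3
    have h5 : (∑ i, (F.e i).card) + 1 ≤ n v := this
    omega
  have ho : ∃ o : Fin m, True := by
    obtain ⟨u, hu⟩ := Finset.card_pos.1 (by have := h2 ⟨0, hk⟩; omega :
      0 < (F.e ⟨0, hk⟩).card)
    exact ⟨u, trivial⟩
  obtain ⟨o, -⟩ := ho
  have hne : Nonempty (Fin m) := ⟨o⟩
  obtain ⟨A, Ω, hE, hΩ⟩ := N852.EL.open_smooth (F := G) N852.EL.genP N852.EL.engS N852.EL.closP
    h2 hc hSm (fun v => by rw [hdeg v, Fintype.card_fin]; exact hn v)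
    (a := fun v => n v - deg F v)
    (fun v => by rw [hdeg v]; exact Nat.sub_add_cancel (hle v))
  refine ⟨Ω, hΩ.1, ?_, ?_⟩
  · obtain ⟨P, h1, h3⟩ := N852.EL.exists_pt hE N852.EL.gqs_iff o
    exact ⟨P, h1, (hΩ.2 P h1).1 h3⟩
  · intro l hl
    obtain ⟨C, -, h⟩ := N852.EL.weak_open N852.EL.weakP hE N852.EL.gqs_iff hΩ l hl
    exact ⟨C, h⟩

end Pool.Agent.Results.MP_18ea5f_nt.SmoothMultilinearAllBundles
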